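import Pool.Agent.Helper562.CMDefs

/-!
Sofic approximations, covering dimension, width dimension and sofic mean dimension.
-/

open Filter Topology Set
open Pool.Agent.Helper562.CM (DimLE)

namespace Pool.Agent.Q67.SM

/-- A sofic approximation `(σ i : G → Sym (Fin (d i)))`. -/
structure IsSoficApprox {G : Type*} [Group G] (d : ℕ → ℕ)
    (σ : ∀ i, G → Equiv.Perm (Fin (d i))) : Prop where
  dim : Tendsto d atTop atTop
  mul : ∀ s t : G, Tendsto (fun i =>
    ((Finset.univ.filter (fun k : Fin (d i) => σ i (s * t) k = σ i s (σ i t k))).card : ℝ)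
      / (d i : ℝ)) atTop (𝓝 1)
  free : ∀ s t : G, s ≠ t → Tendsto (fun i =>
    ((Finset.univ.filter (fun k : Fin (d i) => σ i s k ≠ σ i t k)).card : ℝ) / (d i : ℝ))
      atTop (𝓝 1)

/-- Lebesgue covering dimension with values in `[-∞,∞]` (`-∞` for the empty space). `DimLE P n`
says: every finite open cover has a finite open refinement each point of which lies in at most
`n + 1` members. -/
noncomputable def covDim (P : Type*) [TopologicalSpace P] : EReal :=
  ⨅ (n : ℤ) (_ : DimLE P n), ((n : ℝ) : EReal)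

section defs

variable {X : Type*} [MetricSpace X]

/-- `ρ_2`. -/
noncomputable def rho2 {d : ℕ} (φ ψ : Fin d → X) : ℝ :=
  Real.sqrt ((1 / (d : ℝ)) * ∑ l, dist (φ l) (ψ l) ^ 2)

/-- `ρ_∞`. -/
noncomputable def rhoInf {d : ℕ} (φ ψ : Fin d → X) : ℝ := ⨆ l, dist (φ l) (ψ l)

/-- `Widim_ε(Z, ρ_∞)` for `Z ⊆ X^d`: the infimum (a minimum, as dimensions are integers or `±∞`) of
`dim P` over all compact metrizable `P` admitting a continuous `ε`-embedding `Z → P`. -/
noncomputable def widim (ε : ℝ) {d : ℕ} (Z : Set (Fin d → X)) : EReal :=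
  ⨅ (P : Type) (_ : TopologicalSpace P) (_ : CompactSpace P)
    (_ : TopologicalSpace.MetrizableSpace P) (f : Z → P)
    (_ : Continuous f ∧ ∀ z z' : Z, f z = f z' → rhoInf (z : Fin d → X) (z' : Fin d → X) < ε),
    covDim P

/-- `Map(ρ, F, δ, τ)`. -/
def MapSet {G : Type*} [SMul G X] (F : Finset G) (δ : ℝ) {d : ℕ} (τ : G → Equiv.Perm (Fin d)) :
    Set (Fin d → X) :=
  {φ | ∀ s ∈ F, rho2 (fun l => φ (τ s l)) (fun l => s • φ l) ≤ δ}

variable (X) in
/-- The sofic mean dimension. -/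
noncomputable def soficMeanDim {G : Type*} [SMul G X] (d : ℕ → ℕ)
    (σ : ∀ i, G → Equiv.Perm (Fin (d i))) : EReal :=
  ⨆ (ε : ℝ) (_ : 0 < ε), ⨅ (F : Finset G) (δ : ℝ) (_ : 0 < δ),
    limsup (fun i => widim ε (MapSet (X := X) F δ (σ i)) / (((d i : ℝ)) : EReal)) atTop

end defs

open Classical in
/-- The number of bad sites for finitely many multiplicativity and freeness conditions is `o(d)`. -/
lemma tendsto_bad {G : Type*} [Group G] {d : ℕ → ℕ} {σ : ∀ i, G → Equiv.Perm (Fin (d i))}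
    (hσ : IsSoficApprox d σ) (Q₁ Q₂ : Finset (G × G)) :
    Tendsto (fun i => ((Finset.univ.filter (fun j : Fin (d i) =>
      ¬ ((∀ q ∈ Q₁, σ i (q.1 * q.2) j = σ i q.1 (σ i q.2 j)) ∧
        (∀ q ∈ Q₂, q.1 ≠ q.2 → σ i q.1 j ≠ σ i q.2 j)))).card : ℝ) / (d i : ℝ)) atTop (𝓝 0) := by
  classical
  have h1 : Tendsto (fun i => ∑ q ∈ Q₁, ((Finset.univ.filter (fun j : Fin (d i) =>
      ¬ (σ i (q.1 * q.2) j = σ i q.1 (σ i q.2 j)))).card : ℝ) / (d i : ℝ)) atTop (𝓝 0) := by
    rw [← Finset.sum_const_zero (s := Q₁)]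
    refine tendsto_finsetSum _ fun q _ => ?_
    have h1 := (hσ.mul q.1 q.2).const_sub 1
    rw [sub_self] at h1
    refine h1.congr' ?_
    filter_upwards [hσ.dim.eventually_gt_atTop 0] with i hi
    have hi' : (0:ℝ) < d i := by exact_mod_cast hi
    have h2 := Finset.card_filter_add_card_filter_not (s := (Finset.univ : Finset (Fin (d i))))
      (fun j => σ i (q.1 * q.2) j = σ i q.1 (σ i q.2 j))
    rw [Finset.card_univ, Fintype.card_fin] at h2
    have h3 : ((Finset.univ.filter (fun j : Fin (d i) =>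
        σ i (q.1 * q.2) j = σ i q.1 (σ i q.2 j))).card : ℝ)
        + ((Finset.univ.filter (fun j : Fin (d i) =>
        ¬ σ i (q.1 * q.2) j = σ i q.1 (σ i q.2 j))).card : ℝ) = d i := by
      exact_mod_cast h2
    rw [eq_div_iff hi'.ne', sub_mul, div_mul_cancel₀ _ hi'.ne']
    linarith
  have h2 : Tendsto (fun i => ∑ q ∈ Q₂.filter (fun q => q.1 ≠ q.2),
      ((Finset.univ.filter (fun j : Fin (d i) => σ i q.1 j = σ i q.2 j)).card : ℝ) / (d i : ℝ))
      atTop (𝓝 0) := by
    rw [← Finset.sum_const_zero (s := Q₂.filter (fun q => q.1 ≠ q.2))]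
    refine tendsto_finsetSum _ fun q hq => ?_
    have h1 := (hσ.free q.1 q.2 (Finset.mem_filter.1 hq).2).const_sub 1
    rw [sub_self] at h1
    refine h1.congr' ?_
    filter_upwards [hσ.dim.eventually_gt_atTop 0] with i hi
    have hi' : (0:ℝ) < d i := by exact_mod_cast hi
    have h2 := Finset.card_filter_add_card_filter_not (s := (Finset.univ : Finset (Fin (d i))))
      (fun j => σ i q.1 j = σ i q.2 j)
    rw [Finset.card_univ, Fintype.card_fin] at h2
    have h3 : ((Finset.univ.filter (fun j => σ i q.1 j = σ i q.2 j)).card : ℝ)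
        + ((Finset.univ.filter (fun j => σ i q.1 j ≠ σ i q.2 j)).card : ℝ) = d i := by
      exact_mod_cast h2
    rw [eq_div_iff hi'.ne', sub_mul, div_mul_cancel₀ _ hi'.ne']
    linarith
  have h3 := h1.add h2
  rw [add_zero] at h3
  refine squeeze_zero (fun i => by positivity) (fun i => ?_) h3
  rw [← Finset.sum_div, ← Finset.sum_div, ← add_div]
  refine div_le_div_of_nonneg_right ?_ (by positivity)
  have hsub : (Finset.univ.filter (fun j : Fin (d i) =>
      ¬ ((∀ q ∈ Q₁, σ i (q.1 * q.2) j = σ i q.1 (σ i q.2 j)) ∧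
        (∀ q ∈ Q₂, q.1 ≠ q.2 → σ i q.1 j ≠ σ i q.2 j))))
      ⊆ (Q₁.biUnion (fun q => Finset.univ.filter (fun j : Fin (d i) =>
        ¬ (σ i (q.1 * q.2) j = σ i q.1 (σ i q.2 j)))))
        ∪ ((Q₂.filter (fun q => q.1 ≠ q.2)).biUnion (fun q => Finset.univ.filter
          (fun j : Fin (d i) => σ i q.1 j = σ i q.2 j))) := by
    intro j hj
    have hj' := (Finset.mem_filter.1 hj).2
    rw [not_and_or] at hj'
    rw [Finset.mem_union, Finset.mem_biUnion, Finset.mem_biUnion]
    rcases hj' with hj' | hj'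
    · push Not at hj'
      obtain ⟨q, hq, hne⟩ := hj'
      exact Or.inl ⟨q, hq, Finset.mem_filter.2 ⟨Finset.mem_univ _, hne⟩⟩
    · push Not at hj'
      obtain ⟨q, hq, hne, heq⟩ := hj'
      exact Or.inr ⟨q, Finset.mem_filter.2 ⟨hq, hne⟩, Finset.mem_filter.2 ⟨Finset.mem_univ _, heq⟩⟩
  have hc := (Finset.card_le_card hsub).trans ((Finset.card_union_le _ _).trans
    (add_le_add Finset.card_biUnion_le Finset.card_biUnion_le))
  exact_mod_cast hc

end Pool.Agent.Q67.SM
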