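import Pool.Agent.Q67.SM.Local

/-!
The von Neumann–Lück rank of a finitely generated module over `ℤ(Γ)`, and its comparison with the
local operators.
-/

open Matrix Finset
open scoped InnerProductSpace

namespace Pool.Agent.Q67.SM

section defs

variable {Γ A : Type*} [Group Γ] [AddCommGroup A] [Module (MonoidAlgebra ℤ Γ) A] {n : ℕ}

/-- `c = ∑ c(g,i) g e_i ∈ ℤ(Γ)^n` is a relation between `a_1,…,a_n`: `∑ c(g,i) g a_i = 0`. -/
def IsRel (a : Fin n → A) (c : Γ × Fin n →₀ ℤ) : Prop :=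
  c.sum (fun q m => m • (MonoidAlgebra.of ℤ Γ q.1 • a q.2)) = 0

/-- `ℓ²(Γ)^n`. -/
abbrev Hil (Γ : Type*) (n : ℕ) : Type _ := lp (fun _ : Γ × Fin n => ℂ) 2

open Classical in
/-- An element of `ℤ(Γ)^n` as a vector of `ℓ²(Γ)^n`. -/
noncomputable def relVec (c : Γ × Fin n →₀ ℤ) : Hil Γ n :=
  ∑ q ∈ c.support, lp.single 2 q ((c q : ℤ) : ℂ)

/-- The orthogonal complement in `ℓ²(Γ)^n` of the relation module
`J = ker (ℤ(Γ)^n → A, e_i ↦ a_i)`. -/
noncomputable def relOrth (a : Fin n → A) : Submodule ℂ (Hil Γ n) :=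
  (Submodule.span ℂ {x : Hil Γ n | ∃ c : Γ × Fin n →₀ ℤ, IsRel a c ∧ x = relVec c})ᗮ

instance (a : Fin n → A) : (relOrth (Γ := Γ) a).HasOrthogonalProjection := by
  unfold relOrth
  infer_instance

open Classical in
/-- The von Neumann–Lück rank `vr(A) = dim_{L(Γ)} (L(Γ) ⊗ A)` of `A = ℤ(Γ)^n / J`, i.e. the von
Neumann dimension `∑_i ⟨P e_i, e_i⟩` of the orthogonal complement of `J` in `ℓ²(Γ)^n`. -/
noncomputable def vnRank (Γ : Type*) {A : Type*} [Group Γ] [AddCommGroup A]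
    [Module (MonoidAlgebra ℤ Γ) A] {n : ℕ} (a : Fin n → A) : ℝ :=
  ∑ i : Fin n, ‖(relOrth (Γ := Γ) a).starProjection (lp.single 2 ((1 : Γ), i) (1 : ℂ))‖ ^ 2

end defs

section compare

variable {Γ A : Type*} [Group Γ] [AddCommGroup A] [Module (MonoidAlgebra ℤ Γ) A] {n : ℕ}

/-- Left translate of a relation. -/
noncomputable def translate (h : Γ) (c : Γ × Fin n →₀ ℤ) : Γ × Fin n →₀ ℤ :=
  c.mapDomain (fun q => (h * q.1, q.2))

lemma translate_injective (h : Γ) : Function.Injective (fun q : Γ × Fin n => (h * q.1, q.2)) := by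
  intro q q' hq
  simp only [Prod.mk.injEq, mul_right_inj] at hq
  exact Prod.ext hq.1 hq.2

lemma isRel_translate {a : Fin n → A} {c : Γ × Fin n →₀ ℤ} (hc : IsRel a c) (h : Γ) :
    IsRel a (translate h c) := by
  unfold IsRel translate at *
  rw [Finsupp.sum_mapDomain_index (by simp) (by intros; rw [add_smul])]
  have h1 : c.sum (fun q m => m • (MonoidAlgebra.of ℤ Γ (h * q.1) • a q.2))
      = MonoidAlgebra.of ℤ Γ h • c.sum (fun q m => m • (MonoidAlgebra.of ℤ Γ q.1 • a q.2)) := by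
    rw [Finsupp.smul_sum]
    refine Finsupp.sum_congr fun q _ => ?_
    rw [map_mul, mul_smul, smul_comm]
  rw [h1, hc, smul_zero]

omit [Group Γ] in
lemma inner_relVec (c : Γ × Fin n →₀ ℤ) (x : Hil Γ n) :
    ⟪relVec c, x⟫_ℂ = c.sum (fun q m => (m : ℂ) * x q) := by
  classical
  unfold relVec
  rw [sum_inner, Finsupp.sum]
  refine Finset.sum_congr rfl fun q _ => ?_
  rw [lp.inner_single_left]
  simp [mul_comm]

lemma relOrth_sum {a : Fin n → A} {x : Hil Γ n} (hx : x ∈ relOrth a) {c : Γ × Fin n →₀ ℤ}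
    (hc : IsRel a c) (h : Γ) : ∑ q ∈ c.support, ((c q : ℤ) : ℂ) * x (h * q.1, q.2) = 0 := by
  have h1 := (Submodule.mem_orthogonal _ _).1 hx (relVec (translate h c))
    (Submodule.subset_span ⟨_, isRel_translate hc h, rfl⟩)
  rw [inner_relVec, translate, Finsupp.sum_mapDomain_index (by simp) (by
    intros; push_cast; rw [add_mul])] at h1
  exact h1

/-- pairing with an element orthogonal to the relations kills the range of `TG`. -/
lemma pair_TG {a : Fin n → A} {x : Hil Γ n} (hx : x ∈ relOrth a) {R : Finset (Γ × Fin n →₀ ℤ)}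
    (hR : ∀ c ∈ R, IsRel a c) (v : Γ × Fin n →₀ ℝ) :
    Finsupp.linearCombination ℝ (fun p => x p) (TG R v) = 0 := by
  classical
  induction v using Finsupp.induction_linear with
  | zero => simp
  | add u v hu hv => rw [map_add, map_add, hu, hv, add_zero]
  | single p r =>
    have h0 : (Finsupp.single p r : Γ × Fin n →₀ ℝ) = r • Finsupp.single p (1:ℝ) := by simp
    rw [h0, map_smul, map_smul, TG_single, map_sum]
    simp only [map_sum]
    refine smul_eq_zero_of_right _ (Finset.sum_eq_zero fun c hc => Finset.sum_eq_zero fun q _ => ?_)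
    split_ifs with hqp
    · rw [map_smul, map_sum]
      refine smul_eq_zero_of_right _ ?_
      rw [← relOrth_sum hx (hR c hc) (p.1 * q.1⁻¹)]
      refine Finset.sum_congr rfl fun q' _ => ?_
      rw [map_smul, Finsupp.linearCombination_single, one_smul]
      simp
    · simp

lemma pair_SG_pow {a : Fin n → A} {x : Hil Γ n} (hx : x ∈ relOrth a)
    {R : Finset (Γ × Fin n →₀ ℤ)} (hR : ∀ c ∈ R, IsRel a c) (v : Γ × Fin n →₀ ℝ) (k : ℕ) :
    Finsupp.linearCombination ℝ (fun p => x p) ((SG R ^ k) v)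
      = Finsupp.linearCombination ℝ (fun p => x p) v := by
  induction k with
  | zero => simp
  | succ k ih =>
    rw [pow_succ', ← ih]
    change Finsupp.linearCombination ℝ (fun p => x p) (SG R ((SG R ^ k) v)) = _
    rw [SG, LinearMap.sub_apply, LinearMap.id_apply, LinearMap.smul_apply, map_sub, map_smul,
      ← SG, pair_TG hx hR, smul_zero, sub_zero]

/-- The von Neumann rank is bounded by the norms of the vectors `S^k δ_{(1,i)}`. -/
theorem vnRank_le {a : Fin n → A} {R : Finset (Γ × Fin n →₀ ℤ)} (hR : ∀ c ∈ R, IsRel a c) (k : ℕ) :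
    vnRank Γ a ≤ ∑ i : Fin n, ∑ p ∈ ((SG R ^ k) (Finsupp.single ((1 : Γ), i) (1:ℝ))).support,
      ((SG R ^ k) (Finsupp.single ((1 : Γ), i) (1:ℝ))) p ^ 2 := by
  classical
  unfold vnRank
  refine Finset.sum_le_sum fun i _ => ?_
  set δ : Hil Γ n := lp.single 2 ((1 : Γ), i) (1 : ℂ) with hδ
  set z : Hil Γ n := (relOrth (Γ := Γ) a).starProjection δ with hz
  have hzm : z ∈ relOrth (Γ := Γ) a := Submodule.starProjection_apply_mem _ _
  set v : Γ × Fin n →₀ ℝ := (SG R ^ k) (Finsupp.single ((1 : Γ), i) (1:ℝ)) with hv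
  have h1 : ⟪z, z⟫_ℂ = z ((1 : Γ), i) := by
    have h2 := (relOrth (Γ := Γ) a).starProjection_inner_eq_zero δ z hzm
    rw [← hz, inner_sub_left, sub_eq_zero] at h2
    rw [← h2, hδ, lp.inner_single_left]
    simp
  set w : Hil Γ n := ∑ p ∈ v.support, lp.single 2 p ((v p : ℝ) : ℂ) with hw
  have h3 : ⟪w, z⟫_ℂ = z ((1 : Γ), i) := by
    have h4 := pair_SG_pow hzm hR (Finsupp.single ((1 : Γ), i) (1:ℝ)) k
    rw [← hv, Finsupp.linearCombination_single, one_smul, Finsupp.linearCombination_apply,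
      Finsupp.sum] at h4
    rw [← h4, hw, sum_inner]
    refine Finset.sum_congr rfl fun p _ => ?_
    rw [lp.inner_single_left]
    simp [mul_comm]
  have h5 : ‖z‖ ^ 2 ≤ ‖w‖ * ‖z‖ := by
    have h6 : (‖z‖ : ℂ) ^ 2 = ⟪w, z⟫_ℂ := by
      rw [h3, ← h1, inner_self_eq_norm_sq_to_K]
      rfl
    have h7 := norm_inner_le_norm (𝕜 := ℂ) w z
    rw [← h6] at h7
    simpa using h7
  have h8 : ‖w‖ ^ 2 = ∑ p ∈ v.support, v p ^ 2 := by
    have h9 := lp.norm_sum_single (E := fun _ : Γ × Fin n => ℂ) (p := 2) (by norm_num)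
      (fun p => ((v p : ℝ) : ℂ)) v.support
    simpa [← hw] using h9
  rw [← h8]
  by_cases h0 : ‖z‖ = 0
  · rw [h0]
    simp
  · have h10 : ‖z‖ ≤ ‖w‖ := by
      have : 0 < ‖z‖ := lt_of_le_of_ne (norm_nonneg _) (Ne.symm h0)
      nlinarith
    gcongr

end compare

end Pool.Agent.Q67.SM
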