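import Pool.Agent.Q67.SM.Defs
import Pool.Agent.Q67.SM.VN

/-!
The kernels of the relation matrices in the finite models have dimension at least
`(vr(A) - τ) d_i`.
-/

open Filter Topology Matrix
open scoped InnerProductSpace

namespace Pool.Agent.Q67.SM

variable {Γ A : Type*} [Group Γ] [AddCommGroup A] [Module (MonoidAlgebra ℤ Γ) A] {n : ℕ}

lemma vnRank_nonneg (a : Fin n → A) : 0 ≤ vnRank Γ a :=
  Finset.sum_nonneg fun i _ => by positivity

/-- The estimate for one finite model. -/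
lemma finite_model {a : Fin n → A} {R : Finset (Γ × Fin n →₀ ℤ)} (hR : ∀ c ∈ R, IsRel a c)
    {ε₀ : ℝ} (h0 : 0 < ε₀) (h1 : ε₀ < 1) (k : ℕ) (W : Finset Γ)
    (hW : ∀ l ≤ k, ∀ i : Fin n, ∀ p ∈ ((SG R ^ l) (Finsupp.single ((1 : Γ), i) (1:ℝ))).support,
      p.1 ∈ W) {d : ℕ} (τ : Γ → Equiv.Perm (Fin d)) (Good : Finset (Fin d))
    (hGood : ∀ j ∈ Good, GoodAt τ R W j) :
    (Good.card : ℝ) * vnRank Γ a ≤
      (Module.finrank ℝ (LinearMap.ker (toR (relMat τ R)).mulVecLin) : ℝ)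
        + (d * n : ℝ) * (Real.log (relBound R) / Real.log (1 / ε₀))
        + (d * n : ℝ) * (1 - ε₀ / relBound R) ^ (2 * k) := by
  classical
  have hker := kernel_lower (relMat τ R) (one_le_relBound R) (relMat_bound τ R) h0 h1 k
  have hcard : ((Fintype.card (Fin d × Fin n) : ℕ) : ℝ) = d * n := by
    simp
  rw [hcard] at hker
  refine le_trans ?_ hker
  set S : Matrix (Fin d × Fin n) (Fin d × Fin n) ℝ := (1 : Matrix _ _ ℝ) - (relBound R)⁻¹ •
      ((toR (relMat τ R))ᵀ * toR (relMat τ R)) with hS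
  have hcol : ∀ p q, (S ^ k) q p = ((S ^ k) *ᵥ (Pi.single p (1:ℝ))) q := by
    intro p q
    rw [Matrix.mulVec_single_one]
    rfl
  have hsum : ∑ p, ∑ q, (S ^ k) q p ^ 2
      = ∑ j : Fin d, ∑ i : Fin n, ∑ q, (((S ^ k) *ᵥ (push τ j (Finsupp.single ((1:Γ), i) 1))) q) ^ 2 := by
    simp only [hcol]
    rw [Fintype.sum_prod_type]
    rw [← Equiv.sum_comp (τ (1:Γ)⁻¹)]
    refine Finset.sum_congr rfl fun j _ => Finset.sum_congr rfl fun i _ => ?_
    rw [push_single]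
  rw [hsum]
  have hv := vnRank_le hR k
  calc (Good.card : ℝ) * vnRank Γ a = ∑ j ∈ Good, vnRank Γ a := by simp
    _ ≤ ∑ j ∈ Good, ∑ i : Fin n, ∑ q,
          (((S ^ k) *ᵥ (push τ j (Finsupp.single ((1:Γ), i) 1))) q) ^ 2 := by
        refine Finset.sum_le_sum fun j hj => hv.trans (le_of_eq ?_)
        refine Finset.sum_congr rfl fun i _ => ?_
        rw [hS, intertwine_pow τ R (hGood j hj) _ k (fun l hl => hW l hl.le i),
          push_norm τ R (hGood j hj) _ (hW k le_rfl i)]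
    _ ≤ ∑ j : Fin d, ∑ i : Fin n, ∑ q,
          (((S ^ k) *ᵥ (push τ j (Finsupp.single ((1:Γ), i) 1))) q) ^ 2 :=
        Finset.sum_le_sum_of_subset_of_nonneg (Finset.subset_univ _) fun j _ _ =>
          Finset.sum_nonneg fun i _ => Finset.sum_nonneg fun q _ => by positivity

/-- The dimension of the solution space in the finite models. -/
theorem dim_lower {d : ℕ → ℕ} {σ : ∀ i, Γ → Equiv.Perm (Fin (d i))} (hσ : IsSoficApprox d σ)
    {a : Fin n → A} {R : Finset (Γ × Fin n →₀ ℤ)} (hR : ∀ c ∈ R, IsRel a c) {t : ℝ} (ht : 0 < t) :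
    ∀ᶠ i in atTop, (vnRank Γ a - t) * d i
      ≤ (Module.finrank ℝ (LinearMap.ker (toR (relMat (σ i) R)).mulVecLin) : ℝ) := by
  classical
  set K := relBound R with hKdef
  have hK : 1 ≤ K := one_le_relBound R
  have hK0 : 0 < K := by linarith
  -- choice of `ε₀`
  obtain ⟨ε₀, h0, h1, hε⟩ : ∃ ε₀ : ℝ, 0 < ε₀ ∧ ε₀ < 1 ∧
      (n : ℝ) * (Real.log K / Real.log (1 / ε₀)) ≤ t / 3 := by
    set u : ℝ := 1 + 3 * n * Real.log K / t with hu
    have hlogK : 0 ≤ Real.log K := Real.log_nonneg hK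
    have hu1 : 1 ≤ u := by
      rw [hu]
      have : 0 ≤ 3 * n * Real.log K / t := by positivity
      linarith
    refine ⟨Real.exp (-u), Real.exp_pos _, Real.exp_lt_one_iff.2 (by linarith), ?_⟩
    rw [one_div, Real.exp_neg, inv_inv, Real.log_exp, mul_div_assoc', div_le_iff₀ (by linarith)]
    rw [hu]
    have : t / 3 * (1 + 3 * n * Real.log K / t) = t / 3 + n * Real.log K := by
      field_simp
    rw [this]
    linarith
  -- choice of `k`
  obtain ⟨k, hk⟩ : ∃ k : ℕ, (n : ℝ) * (1 - ε₀ / K) ^ (2 * k) ≤ t / 3 := by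
    have hb0 : 0 ≤ 1 - ε₀ / K := by
      have : ε₀ / K ≤ 1 := by
        rw [div_le_one hK0]; linarith
      linarith
    have hb1 : (1 - ε₀ / K) < 1 := by
      have : 0 < ε₀ / K := by positivity
      linarith
    have hlim : Tendsto (fun k : ℕ => (n : ℝ) * (1 - ε₀ / K) ^ (2 * k)) atTop (𝓝 (n * 0)) := by
      refine Tendsto.const_mul _ ?_
      have h2 : (fun k : ℕ => (1 - ε₀ / K) ^ (2 * k)) = fun k : ℕ => ((1 - ε₀ / K) ^ 2) ^ k := by
        funext k; rw [pow_mul]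
      rw [h2]
      exact tendsto_pow_atTop_nhds_zero_of_lt_one (by positivity) (by nlinarith)
    rw [mul_zero] at hlim
    obtain ⟨k, hk⟩ := (hlim.eventually (gt_mem_nhds (show (0:ℝ) < t / 3 by positivity))).exists
    exact ⟨k, hk.le⟩
  -- the window
  set W : Finset Γ := (Finset.range (k + 1)).biUnion (fun l => Finset.univ.biUnion (fun i : Fin n =>
    ((SG R ^ l) (Finsupp.single ((1 : Γ), i) (1:ℝ))).support.image Prod.fst)) with hWdef
  have hW : ∀ l ≤ k, ∀ i : Fin n, ∀ p ∈ ((SG R ^ l) (Finsupp.single ((1 : Γ), i) (1:ℝ))).support,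
      p.1 ∈ W := by
    intro l hl i p hp
    rw [hWdef, Finset.mem_biUnion]
    refine ⟨l, Finset.mem_range.2 (by omega), ?_⟩
    rw [Finset.mem_biUnion]
    exact ⟨i, Finset.mem_univ _, Finset.mem_image_of_mem _ hp⟩
  -- the conditions
  set Sp : Finset Γ := R.biUnion (fun c => c.support.image Prod.fst) with hSp
  set Q₁ : Finset (Γ × Γ) := (Sp ×ˢ (W ×ˢ Sp)).image (fun q => (q.1⁻¹, (q.2.1 * q.2.2⁻¹)⁻¹)) with hQ₁
  set Q₂ : Finset (Γ × Γ) := (W ×ˢ W).image (fun q => (q.1⁻¹, q.2⁻¹)) with hQ₂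
  have hbad := tendsto_bad hσ Q₁ Q₂
  have hv0 := vnRank_nonneg (Γ := Γ) a
  filter_upwards [hσ.dim.eventually_gt_atTop 0, hbad.eventually (gt_mem_nhds
    (show (0:ℝ) < t / 3 / (vnRank Γ a + 1) by positivity))] with i hi hib
  have hi' : (0:ℝ) < d i := by exact_mod_cast hi
  set Bad : Finset (Fin (d i)) := Finset.univ.filter (fun j : Fin (d i) =>
      ¬ ((∀ q ∈ Q₁, σ i (q.1 * q.2) j = σ i q.1 (σ i q.2 j)) ∧
        (∀ q ∈ Q₂, q.1 ≠ q.2 → σ i q.1 j ≠ σ i q.2 j))) with hBad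
  have hgood : ∀ j ∈ Badᶜ, GoodAt (σ i) R W j := by
    intro j hj
    rw [Finset.mem_compl, hBad, Finset.mem_filter, not_and, not_not] at hj
    obtain ⟨hj1, hj2⟩ := hj (Finset.mem_univ _)
    have hSpm : ∀ c ∈ R, ∀ q ∈ c.support, q.1 ∈ Sp := by
      intro c hc q hq
      rw [hSp, Finset.mem_biUnion]
      exact ⟨c, hc, Finset.mem_image_of_mem _ hq⟩
    refine ⟨?_, ?_, ?_⟩
    · intro g hg c hc q hq
      have h2 := hj1 (q.1⁻¹, (g * q.1⁻¹)⁻¹) (by
        rw [hQ₁, Finset.mem_image]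
        exact ⟨(q.1, (g, q.1)), by simp [hg, hSpm c hc q hq], rfl⟩)
      simp only at h2
      rw [← h2]
      congr 2
      group
    · intro g hg c hc q hq q' hq'
      have h2 := hj1 (q'.1⁻¹, (g * q.1⁻¹)⁻¹) (by
        rw [hQ₁, Finset.mem_image]
        exact ⟨(q'.1, (g, q.1)), by simp [hg, hSpm c hc q hq, hSpm c hc q' hq'], rfl⟩)
      simp only at h2
      rw [← h2]
      congr 2
      group
    · intro g hg g' hg' h
      by_contra hne
      refine hj2 (g⁻¹, g'⁻¹) ?_ (by simpa using hne) h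
      rw [hQ₂, Finset.mem_image]
      exact ⟨(g, g'), by simp [hg, hg'], rfl⟩
  have hmain := finite_model hR h0 h1 k W hW (σ i) Badᶜ hgood
  have hcardc : ((Badᶜ.card : ℕ) : ℝ) = d i - Bad.card := by
    rw [Finset.card_compl, Nat.cast_sub (Finset.card_le_univ _), Fintype.card_fin]
  rw [hcardc] at hmain
  rw [div_lt_iff₀ hi'] at hib
  have hb2 : (Bad.card : ℝ) * vnRank Γ a ≤ t / 3 * d i := by
    calc (Bad.card : ℝ) * vnRank Γ a ≤ (t / 3 / (vnRank Γ a + 1) * d i) * vnRank Γ a := by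
          gcongr
      _ = t / 3 * d i * (vnRank Γ a / (vnRank Γ a + 1)) := by field_simp
      _ ≤ t / 3 * d i * 1 := by
          gcongr
          rw [div_le_one (by positivity)]
          linarith
      _ = t / 3 * d i := by ring
  have e1 : (d i * n : ℝ) * (Real.log K / Real.log (1 / ε₀)) ≤ t / 3 * d i := by
    calc _ = (n : ℝ) * (Real.log K / Real.log (1 / ε₀)) * d i := by ring
      _ ≤ t / 3 * d i := by gcongr
  have e2 : (d i * n : ℝ) * (1 - ε₀ / K) ^ (2 * k) ≤ t / 3 * d i := by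
    calc _ = (n : ℝ) * (1 - ε₀ / K) ^ (2 * k) * d i := by ring
      _ ≤ t / 3 * d i := by gcongr
  nlinarith

end Pool.Agent.Q67.SM
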