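import Pool.Agent.Helper562.CMDim
import Pool.Agent.Helper133.Brouwer

/-!
Gromov's lemma: a continuous map from the ball of radius `r` of an `m`-dimensional normed space to
a compact space of covering dimension `≤ m - 1` has a fibre of diameter `≥ r`.
-/

open Set Topology Metric
open Pool.Agent.Helper562.CM (DimLE)

namespace Pool.Agent.Q67.SM

/-- The affine spans of families of at most `m = dim V` points do not cover a ball. -/
lemma exists_notMem_spans {V : Type*} [NormedAddCommGroup V] [NormedSpace ℝ V]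
    [FiniteDimensional ℝ V] {ι : Type*} [Finite ι] (x : ι → V) {s : ℝ} (hs : 0 < s) :
    ∃ v : V, ‖v‖ < s ∧ ∀ S : Finset ι, S.card ≤ Module.finrank ℝ V →
      v ∉ affineSpan ℝ (x '' (S : Set ι)) := by
  classical
  have := Fintype.ofFinite ι
  borelize V
  let μ : MeasureTheory.Measure V := MeasureTheory.Measure.addHaar
  have hnull : ∀ S : Finset ι, S.card ≤ Module.finrank ℝ V →
      μ (affineSpan ℝ (x '' (S : Set ι)) : Set V) = 0 := by
    intro S hS
    refine MeasureTheory.Measure.addHaar_affineSubspace μ _ ?_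
    intro htop
    rcases S.eq_empty_or_nonempty with h0 | h0
    · rw [h0] at htop
      simp only [Finset.coe_empty, image_empty, AffineSubspace.span_empty] at htop
      exact AffineSubspace.bot_ne_top ℝ V V htop
    · obtain ⟨n, hn⟩ : ∃ n, S.card = n + 1 := ⟨S.card - 1, by
        have := Finset.card_pos.2 h0; omega⟩
      have h1 : Module.finrank ℝ (vectorSpan ℝ (x '' (S : Set ι))) ≤ n := by
        have := finrank_vectorSpan_image_finset_le ℝ x S hn
        rwa [Finset.coe_image] at this
      rw [← direction_affineSpan, htop, AffineSubspace.direction_top, finrank_top] at h1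
      omega
  have hnull2 : μ (⋃ S ∈ {S : Finset ι | S.card ≤ Module.finrank ℝ V},
      (affineSpan ℝ (x '' (S : Set ι)) : Set V)) = 0 := by
    refine (MeasureTheory.measure_biUnion_null_iff (Set.toFinite _).countable).2 ?_
    intro S hS
    exact hnull S hS
  have hball : 0 < μ (ball (0 : V) s) := measure_ball_pos μ 0 hs
  by_contra hcon
  push Not at hcon
  have hsub : ball (0:V) s ⊆ ⋃ S ∈ {S : Finset ι | S.card ≤ Module.finrank ℝ V},
      (affineSpan ℝ (x '' (S : Set ι)) : Set V) := by
    intro v hv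
    obtain ⟨S, hS, hvS⟩ := hcon v (by simpa using hv)
    exact mem_iUnion₂.2 ⟨S, hS, hvS⟩
  exact hball.ne' (MeasureTheory.measure_mono_null hsub hnull2)

theorem gromov {V : Type*} [NormedAddCommGroup V] [NormedSpace ℝ V] [FiniteDimensional ℝ V]
    {P : Type*} [TopologicalSpace P] [CompactSpace P] [T2Space P] {r : ℝ} (hr : 0 < r)
    (g : closedBall (0:V) r → P) (hg : Continuous g)
    (hP : DimLE P ((Module.finrank ℝ V : ℤ) - 1)) :
    ∃ x y : closedBall (0:V) r, g x = g y ∧ r ≤ dist (x:V) y := by
  classical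
  by_contra hcon
  push Not at hcon
  have hprop : ProperSpace V := FiniteDimensional.proper ℝ V
  have hKc : CompactSpace (closedBall (0:V) r) := isCompact_iff_compactSpace.1 (isCompact_closedBall 0 r)
  -- the uniform bound
  obtain ⟨r', hr'0, hr'r, hr'⟩ : ∃ r', 0 < r' ∧ r' < r ∧ ∀ x y : closedBall (0:V) r, g x = g y →
      dist (x:V) y < r' := by
    have hC : IsCompact {q : closedBall (0:V) r × closedBall (0:V) r | g q.1 = g q.2} :=
      (isClosed_eq (hg.comp continuous_fst) (hg.comp continuous_snd)).isCompact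
    have hne : {q : closedBall (0:V) r × closedBall (0:V) r | g q.1 = g q.2}.Nonempty :=
      ⟨(⟨0, by simp [hr.le]⟩, ⟨0, by simp [hr.le]⟩), rfl⟩
    obtain ⟨q, hq, hmax⟩ := hC.exists_isMaxOn hne
      (f := fun q : closedBall (0:V) r × closedBall (0:V) r => dist (q.1:V) q.2)
      (by fun_prop)
    have h1 := hcon q.1 q.2 hq
    have h0 : 0 ≤ dist (q.1:V) q.2 := dist_nonneg
    refine ⟨(dist (q.1:V) q.2 + r) / 2, by linarith, by linarith, fun x y hxy => ?_⟩
    have := hmax (a := (x, y)) hxy
    simp only [Set.mem_ofPred_eq] at this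
    linarith
  -- small open sets
  have hsmall : ∀ p : P, ∃ U : Set P, IsOpen U ∧ p ∈ U ∧ ∀ x y : closedBall (0:V) r,
      g x ∈ U → g y ∈ U → dist (x:V) y < r' := by
    intro p
    have hD : IsCompact {q : closedBall (0:V) r × closedBall (0:V) r | r' ≤ dist (q.1:V) q.2} :=
      (isClosed_le continuous_const (by fun_prop)).isCompact
    have hI := (hD.image (f := fun q : closedBall (0:V) r × closedBall (0:V) r => (g q.1, g q.2))
      ((hg.comp continuous_fst).prodMk (hg.comp continuous_snd))).isClosed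
    have hp : (p, p) ∈ ((fun q : closedBall (0:V) r × closedBall (0:V) r => (g q.1, g q.2)) ''
        {q | r' ≤ dist (q.1:V) q.2})ᶜ := by
      rintro ⟨q, hq, hqp⟩
      simp only [Prod.mk.injEq] at hqp
      have h1 := hr' q.1 q.2 (hqp.1.trans hqp.2.symm)
      have h2 : r' ≤ dist (q.1:V) q.2 := hq
      linarith
    obtain ⟨U₁, U₂, hU₁, hU₂, hp1, hp2, hU⟩ := isOpen_prod_iff.1 hI.isOpen_compl p p hp
    refine ⟨U₁ ∩ U₂, hU₁.inter hU₂, ⟨hp1, hp2⟩, fun x y hx hy => ?_⟩
    by_contra hcon2
    push Not at hcon2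
    exact hU ⟨hx.1, hy.2⟩ ⟨(x, y), hcon2, rfl⟩
  choose U hUo hpU hUd using hsmall
  obtain ⟨t, ht⟩ := isCompact_univ.elim_finite_subcover U hUo (fun p _ => mem_iUnion.2 ⟨p, hpU p⟩)
  obtain ⟨𝒱, hfin, hopen, hcov, href, hord⟩ := hP (U '' (t : Set P))
    (t.finite_toSet.image _) (by rintro _ ⟨p, -, rfl⟩; exact hUo p) (by
      rw [eq_univ_iff_forall]
      intro p
      obtain ⟨y, hy⟩ := mem_iUnion.1 (ht (mem_univ p))
      obtain ⟨hy1, hy2⟩ := mem_iUnion.1 hy
      exact ⟨_, ⟨y, hy1, rfl⟩, hy2⟩)
  have : Fintype 𝒱 := hfin.fintype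
  obtain ⟨lam, hlam⟩ := PartitionOfUnity.exists_isSubordinate (s := (univ : Set P)) isClosed_univ
    (fun W : 𝒱 => (W : Set P)) (fun W => hopen _ W.2) (by
      intro p _
      have hp : p ∈ ⋃₀ 𝒱 := by rw [hcov]; trivial
      obtain ⟨W, hW, hpW⟩ := hp
      exact mem_iUnion.2 ⟨⟨W, hW⟩, hpW⟩)
  have hmem : ∀ (W : 𝒱) p, lam W p ≠ 0 → p ∈ (W : Set P) := fun W p h => hlam W (subset_closure h)
  have hsum : ∀ p, ∑ W, lam W p = 1 := fun p => by
    rw [← finsum_eq_sum_of_fintype]
    exact lam.sum_eq_one (mem_univ p)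
  -- centres
  have hctr : ∀ W : 𝒱, ∃ x : V, ∀ z : closedBall (0:V) r, g z ∈ (W : Set P) → dist (z:V) x < r' := by
    intro W
    by_cases h : ∃ x : closedBall (0:V) r, g x ∈ (W : Set P)
    · obtain ⟨x, hx⟩ := h
      obtain ⟨_, ⟨p, -, rfl⟩, hWp⟩ := href _ W.2
      exact ⟨x, fun z hz => hUd p z x (hWp hz) (hWp hx)⟩
    · push Not at h
      exact ⟨0, fun z hz => absurd hz (h z)⟩
  choose x hx using hctr
  let h : closedBall (0:V) r → V := fun z => ∑ W, lam W (g z) • x W
  have hhc : Continuous h := by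
    refine continuous_finsetSum _ fun W _ => ?_
    exact ((lam W).continuous.comp hg).smul continuous_const
  have hclose : ∀ z : closedBall (0:V) r, ‖(z:V) - h z‖ ≤ r' := by
    intro z
    have h1 : (z:V) - h z = ∑ W, lam W (g z) • ((z:V) - x W) := by
      simp only [h, smul_sub, Finset.sum_sub_distrib]
      rw [← Finset.sum_smul, hsum, one_smul]
    rw [h1]
    calc ‖∑ W, lam W (g z) • ((z:V) - x W)‖ ≤ ∑ W, ‖lam W (g z) • ((z:V) - x W)‖ :=
          norm_sum_le _ _
      _ ≤ ∑ W, lam W (g z) * r' := by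
          refine Finset.sum_le_sum fun W _ => ?_
          rw [norm_smul, Real.norm_of_nonneg (lam.nonneg W _)]
          by_cases h0 : lam W (g z) = 0
          · rw [h0]; simp
          · have := hx W z (hmem W _ h0)
            rw [dist_eq_norm] at this
            exact mul_le_mul_of_nonneg_left this.le (lam.nonneg W _)
      _ = r' := by rw [← Finset.sum_mul, hsum, one_mul]
  -- the image is thin
  obtain ⟨v, hv, hvS⟩ := exists_notMem_spans x (s := r - r') (by linarith)
  have hne : ∀ z, h z ≠ v := by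
    intro z hz
    let S : Finset 𝒱 := Finset.univ.filter (fun W => lam W (g z) ≠ 0)
    have hS : S.card ≤ Module.finrank ℝ V := by
      have h1 := hord (g z)
      have h2 : S.card ≤ {W ∈ 𝒱 | g z ∈ W}.ncard := by
        rw [← Set.ncard_coe_finset]
        refine Set.ncard_le_ncard_of_injOn (fun W : 𝒱 => (W : Set P)) ?_ ?_
          (hfin.subset (sep_subset _ _))
        · intro W hW
          exact ⟨W.2, hmem W _ (Finset.mem_filter.1 hW).2⟩
        · intro W _ W' _ hWW
          exact Subtype.ext hWW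
      have h3 : (S.card : ℤ) ≤ ({W ∈ 𝒱 | g z ∈ W}.ncard : ℤ) := by exact_mod_cast h2
      have h4 := h3.trans h1
      omega
    refine hvS S hS ?_
    rw [← hz]
    have h5 : h z = ∑ W ∈ S, lam W (g z) • x W := by
      simp only [h]
      refine (Finset.sum_subset (Finset.subset_univ S) fun W _ hW => ?_).symm
      have : lam W (g z) = 0 := by
        by_contra hcon3
        exact hW (Finset.mem_filter.2 ⟨Finset.mem_univ _, hcon3⟩)
      rw [this, zero_smul]
    have h6 : ∑ W ∈ S, lam W (g z) = 1 := by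
      rw [← hsum (g z)]
      refine Finset.sum_subset (Finset.subset_univ S) fun W _ hW => ?_
      by_contra hcon3
      exact hW (Finset.mem_filter.2 ⟨Finset.mem_univ _, hcon3⟩)
    rw [h5, ← Finset.affineCombination_eq_linear_combination S x _ h6]
    exact affineCombination_mem_affineSpan_image h6 (fun W hW h => absurd hW h) x
  -- the radial retraction
  have hpos : ∀ z : V, 0 < max r ‖z‖ := fun z => lt_of_lt_of_le hr (le_max_left _ _)
  have hret : ∀ z : V, (r / max r ‖z‖) • z ∈ closedBall (0:V) r := by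
    intro z
    rw [mem_closedBall_zero_iff, norm_smul, Real.norm_of_nonneg (div_nonneg hr.le (hpos z).le),
      div_mul_eq_mul_div, div_le_iff₀ (hpos z)]
    exact mul_le_mul_of_nonneg_left (le_max_right _ _) hr.le
  let R : V → closedBall (0:V) r := fun z => ⟨(r / max r ‖z‖) • z, hret z⟩
  have hRc : Continuous R := by
    refine Continuous.subtype_mk ?_ _
    exact (continuous_const.div (continuous_const.max continuous_norm)
      (fun z => (hpos z).ne')).smul continuous_id
  obtain ⟨z, hz⟩ := Pool.Agent.Helper133.Brouwer.brouwer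
    (fun z => ((R z : V) - h (R z)) + v) (((continuous_subtype_val.comp hRc).sub
      (hhc.comp hRc)).add continuous_const) r (by
      intro z
      calc ‖((R z : V) - h (R z)) + v‖ ≤ ‖(R z : V) - h (R z)‖ + ‖v‖ := norm_add_le _ _
        _ ≤ r' + (r - r') := add_le_add (hclose _) hv.le
        _ = r := by ring)
  have hzn : ‖z‖ ≤ r := by
    rw [← hz]
    calc ‖((R z : V) - h (R z)) + v‖ ≤ ‖(R z : V) - h (R z)‖ + ‖v‖ := norm_add_le _ _
      _ ≤ r' + (r - r') := add_le_add (hclose _) hv.le
      _ = r := by ring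
  have hRz : (R z : V) = z := by
    simp only [R]
    rw [max_eq_left hzn, div_self hr.ne', one_smul]
  refine hne (R z) ?_
  have h1 : ((R z : V) - h (R z)) + v = z := hz
  have h2 : h (R z) = (R z : V) + v - z := by
    have h3 : (R z : V) + v - (((R z : V) - h (R z)) + v) = h (R z) := by abel
    rw [h1] at h3
    exact h3.symm
  rw [h2, hRz]
  abel

end Pool.Agent.Q67.SM
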