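import Mathlib

/-!
A quantitative lower bound for the dimension of the kernel of an integer matrix (the elementary
core of Lück approximation).
-/

open Matrix Polynomial Finset

namespace Pool.Agent.Q67.SM

lemma prod_nonzero_ge_one {m : Type*} [Fintype m] [DecidableEq m] (lam : m → ℝ) (p : ℤ[X])
    (hp : p.map (Int.castRingHom ℝ) = ∏ j, (X - C (lam j))) :
    1 ≤ ∏ j ∈ univ.filter (fun j => lam j ≠ 0), |lam j| := by
  classical
  set Z : Finset m := univ.filter (fun j => lam j = 0) with hZ
  set N : Finset m := univ.filter (fun j => lam j ≠ 0) with hN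
  have h1 : ∏ j, (X - C (lam j)) = X ^ Z.card * ∏ j ∈ N, (X - C (lam j)) := by
    rw [← Finset.prod_filter_mul_prod_filter_not univ (fun j => lam j = 0)]
    congr 1
    rw [← Finset.prod_const]
    refine Finset.prod_congr rfl fun j hj => ?_
    rw [(Finset.mem_filter.1 hj).2]
    simp
  have h2 : ((p.coeff Z.card : ℤ) : ℝ) = ∏ j ∈ N, (-lam j) := by
    have h3 : (p.map (Int.castRingHom ℝ)).coeff Z.card = ((p.coeff Z.card : ℤ) : ℝ) := by
      rw [coeff_map]; rfl
    rw [← h3, hp, h1]
    have h4 : (X ^ Z.card * ∏ j ∈ N, (X - C (lam j))).coeff (0 + Z.card)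
        = (∏ j ∈ N, (X - C (lam j))).coeff 0 := coeff_X_pow_mul _ _ _
    rw [zero_add] at h4
    rw [h4, coeff_zero_eq_eval_zero, eval_prod]
    simp
  have h3 : (∏ j ∈ N, (-lam j)) ≠ 0 := by
    rw [Finset.prod_ne_zero_iff]
    intro j hj
    exact neg_ne_zero.2 (Finset.mem_filter.1 hj).2
  have h4 : (p.coeff Z.card) ≠ 0 := by
    intro h0
    rw [h0, Int.cast_zero] at h2
    exact h3 h2.symm
  have h5 : (1:ℝ) ≤ |((p.coeff Z.card : ℤ) : ℝ)| := by
    rw [← Int.cast_abs]
    exact_mod_cast Int.one_le_abs h4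
  rw [h2, Finset.abs_prod] at h5
  simpa using h5

/-- The real matrix of an integer matrix. -/
abbrev toR {m m' : Type*} (M : Matrix m' m ℤ) : Matrix m' m ℝ := M.map (Int.castRingHom ℝ)

theorem kernel_lower {m m' : Type*} [Fintype m] [DecidableEq m] [Fintype m']
    (M : Matrix m' m ℤ) {K : ℝ} (hK : 1 ≤ K)
    (hM : ∀ x : m → ℝ, ((toR M) *ᵥ x) ⬝ᵥ ((toR M) *ᵥ x) ≤ K * (x ⬝ᵥ x)) {ε₀ : ℝ}
    (h0 : 0 < ε₀) (h1 : ε₀ < 1) (k : ℕ) :
    ∑ p, ∑ q, (((1 : Matrix m m ℝ) - K⁻¹ • ((toR M)ᵀ * toR M)) ^ k) q p ^ 2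
      ≤ (Module.finrank ℝ (LinearMap.ker (toR M).mulVecLin) : ℝ)
        + Fintype.card m * (Real.log K / Real.log (1 / ε₀))
        + Fintype.card m * (1 - ε₀ / K) ^ (2 * k) := by
  classical
  set T : Matrix m m ℝ := (toR M)ᵀ * toR M with hTdef
  have hK0 : 0 < K := by linarith
  have hT : T.IsHermitian := by
    rw [Matrix.IsHermitian, hTdef, conjTranspose_eq_transpose_of_trivial, transpose_mul,
      transpose_transpose]
  have hdot : ∀ b : m → ℝ, b ⬝ᵥ (T *ᵥ b) = ((toR M) *ᵥ b) ⬝ᵥ ((toR M) *ᵥ b) := by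
    intro b
    rw [hTdef, ← mulVec_mulVec, dotProduct_mulVec, vecMul_transpose]
  set lam : m → ℝ := hT.eigenvalues with hlam
  -- eigenvalue bounds
  have hlamM : ∀ j, ∃ b : m → ℝ, b ⬝ᵥ b = 1 ∧ lam j = ((toR M) *ᵥ b) ⬝ᵥ ((toR M) *ᵥ b) := by
    intro j
    refine ⟨⇑(hT.eigenvectorBasis j), ?_, ?_⟩
    · have h := hT.eigenvectorBasis.orthonormal.1 j
      have h2 : ‖hT.eigenvectorBasis j‖ ^ 2 = 1 := by rw [h]; norm_num
      rw [EuclideanSpace.norm_sq_eq] at h2
      simp only [Real.norm_eq_abs, sq_abs] at h2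
      rw [dotProduct]
      rw [← h2]
      exact Finset.sum_congr rfl fun i _ => by ring
    · have h := hT.mulVec_eigenvectorBasis j
      have h2 : ⇑(hT.eigenvectorBasis j) ⬝ᵥ ⇑(hT.eigenvectorBasis j) = 1 := by
        have h := hT.eigenvectorBasis.orthonormal.1 j
        have h2 : ‖hT.eigenvectorBasis j‖ ^ 2 = 1 := by rw [h]; norm_num
        rw [EuclideanSpace.norm_sq_eq] at h2
        simp only [Real.norm_eq_abs, sq_abs] at h2
        rw [dotProduct]
        rw [← h2]
        exact Finset.sum_congr rfl fun i _ => by ring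
      have h3 : ⇑(hT.eigenvectorBasis j) ⬝ᵥ (T *ᵥ ⇑(hT.eigenvectorBasis j))
          = lam j := by
        rw [h, dotProduct_smul, h2]
        simp [hlam]
      rw [← h3, hdot]
  have hlam0 : ∀ j, 0 ≤ lam j := by
    intro j
    obtain ⟨b, -, hb⟩ := hlamM j
    rw [hb]
    exact dotProduct_self_star_nonneg _
  have hlamK : ∀ j, lam j ≤ K := by
    intro j
    obtain ⟨b, hb1, hb⟩ := hlamM j
    rw [hb]
    have := hM b
    rw [hb1] at this
    linarith
  -- the Hilbert-Schmidt norm
  set S : Matrix m m ℝ := 1 - K⁻¹ • T with hS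
  set mu : m → ℝ := fun j => 1 - K⁻¹ * lam j with hmu
  have hHS : ∑ p, ∑ q, (S ^ k) q p ^ 2 = ∑ j, mu j ^ (2 * k) := by
    have hSt : (S ^ k)ᵀ = S ^ k := by
      have h2 : Sᵀ = S := by
        rw [hS, transpose_sub, transpose_one, transpose_smul, hTdef, transpose_mul,
          transpose_transpose]
      rw [transpose_pow, h2]
    have h2 : ∑ p, ∑ q, (S ^ k) q p ^ 2 = trace (S ^ (2 * k)) := by
      rw [two_mul, pow_add, trace]
      refine Finset.sum_congr rfl fun p _ => ?_
      rw [diag_apply, mul_apply]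
      refine Finset.sum_congr rfl fun q _ => ?_
      have h3 : (S ^ k) p q = (S ^ k) q p := by
        conv_lhs => rw [← hSt]
        rfl
      rw [h3]; ring
    rw [h2]
    have h4 : S = Unitary.conjStarAlgAut ℝ _ hT.eigenvectorUnitary (diagonal mu) := by
      have h5 : diagonal mu = 1 - K⁻¹ • diagonal (RCLike.ofReal ∘ hT.eigenvalues) := by
        ext i j
        by_cases hij : i = j
        · subst hij
          simp [hmu, hlam]
        · simp [hij, Matrix.one_apply_ne hij]
      rw [h5, map_sub, map_one, map_smul, ← hT.spectral_theorem]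
    rw [h4, ← map_pow, diagonal_pow, Unitary.conjStarAlgAut_apply, trace_mul_cycle]
    simp [trace]
  rw [hHS]
  -- splitting the eigenvalues
  have hker : (Module.finrank ℝ (LinearMap.ker (toR M).mulVecLin))
      = (univ.filter (fun j => lam j = 0)).card := by
    have h2 := LinearMap.finrank_range_add_finrank_ker (toR M).mulVecLin
    have h3 : Module.finrank ℝ (LinearMap.range (toR M).mulVecLin) = (toR M).rank := rfl
    have h4 : (toR M).rank = T.rank := by
      rw [hTdef, rank_transpose_mul_self]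
    have h5 := hT.rank_eq_card_non_zero_eigs
    have h6 := Finset.card_filter_add_card_filter_not (s := (univ : Finset m)) (fun j => lam j = 0)
    rw [Fintype.card_subtype] at h5
    rw [h3, h4, h5, Module.finrank_fintype_fun_eq_card] at h2
    rw [Finset.card_univ] at h6
    simp only [ne_eq] at h2
    simp only [hlam] at h6 ⊢
    omega
  have hsmall : ((univ.filter (fun j => lam j ≠ 0 ∧ lam j < ε₀)).card : ℝ)
      ≤ Fintype.card m * (Real.log K / Real.log (1 / ε₀)) := by
    have h2 := prod_nonzero_ge_one lam (((M)ᵀ * M).charpoly) (by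
      rw [← Matrix.charpoly_map]
      have h3 : ((M)ᵀ * M).map (Int.castRingHom ℝ) = T := by
        rw [Matrix.map_mul, hTdef]
        rfl
      rw [h3]
      exact hT.charpoly_eq)
    have h3 : ∏ j ∈ univ.filter (fun j => lam j ≠ 0), |lam j|
        ≤ ε₀ ^ (univ.filter (fun j => lam j ≠ 0 ∧ lam j < ε₀)).card * K ^ (Fintype.card m) := by
      rw [← Finset.prod_filter_mul_prod_filter_not (univ.filter (fun j => lam j ≠ 0))
        (fun j => lam j < ε₀), Finset.filter_filter]
      refine mul_le_mul ?_ ?_ (Finset.prod_nonneg fun j _ => abs_nonneg _) (by positivity)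
      · rw [← Finset.prod_const]
        refine Finset.prod_le_prod (fun j _ => abs_nonneg _) fun j hj => ?_
        rw [abs_of_nonneg (hlam0 j)]
        exact (Finset.mem_filter.1 hj).2.2.le
      · calc ∏ j ∈ (univ.filter (fun j => lam j ≠ 0)).filter (fun j => ¬ lam j < ε₀), |lam j|
            ≤ ∏ j ∈ (univ.filter (fun j => lam j ≠ 0)).filter (fun j => ¬ lam j < ε₀), K := by
              refine Finset.prod_le_prod (fun j _ => abs_nonneg _) fun j _ => ?_
              rw [abs_of_nonneg (hlam0 j)]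
              exact hlamK j
          _ ≤ K ^ (Fintype.card m) := by
              rw [Finset.prod_const]
              exact pow_le_pow_right₀ hK (Finset.card_le_univ _)
    have h4 := h2.trans h3
    have h5 := Real.log_le_log one_pos h4
    rw [Real.log_one, Real.log_mul (by positivity) (by positivity), Real.log_pow, Real.log_pow] at h5
    have h6 : 0 < Real.log (1 / ε₀) := Real.log_pos (by rw [lt_div_iff₀ h0]; linarith)
    rw [mul_div_assoc', le_div_iff₀ h6, one_div, Real.log_inv]
    linarith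
  have hsplit : ∀ j, mu j ^ (2 * k) ≤ (if lam j = 0 then 1 else 0)
      + (if lam j ≠ 0 ∧ lam j < ε₀ then 1 else 0) + (1 - ε₀ / K) ^ (2 * k) := by
    intro j
    have hmu0 : 0 ≤ mu j := by
      simp only [hmu]
      have : K⁻¹ * lam j ≤ 1 := by
        rw [inv_mul_le_iff₀ hK0, mul_one]; exact hlamK j
      linarith
    have hmu1 : mu j ≤ 1 := by
      simp only [hmu]
      have := mul_nonneg (inv_nonneg.2 hK0.le) (hlam0 j)
      linarith
    have hge : 0 ≤ (1 - ε₀ / K) ^ (2 * k) := by
      rw [pow_mul]; positivity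
    have hp1 : mu j ^ (2 * k) ≤ 1 := pow_le_one₀ hmu0 hmu1
    by_cases c1 : lam j = 0
    · rw [if_pos c1]
      have : (0:ℝ) ≤ (if lam j ≠ 0 ∧ lam j < ε₀ then 1 else 0) := by split_ifs <;> norm_num
      linarith
    · rw [if_neg c1]
      by_cases c2 : lam j < ε₀
      · rw [if_pos ⟨c1, c2⟩]
        linarith
      · rw [if_neg (fun h => c2 h.2)]
        push Not at c2
        have : mu j ≤ 1 - ε₀ / K := by
          simp only [hmu]
          have : ε₀ / K ≤ K⁻¹ * lam j := by
            rw [div_eq_inv_mul]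
            exact mul_le_mul_of_nonneg_left c2 (inv_nonneg.2 hK0.le)
          linarith
        have := pow_le_pow_left₀ hmu0 this (2 * k)
        linarith
  calc ∑ j, mu j ^ (2 * k) ≤ ∑ j, ((if lam j = 0 then 1 else 0)
      + (if lam j ≠ 0 ∧ lam j < ε₀ then 1 else 0) + (1 - ε₀ / K) ^ (2 * k)) :=
        Finset.sum_le_sum fun j _ => hsplit j
    _ = ((univ.filter (fun j => lam j = 0)).card : ℝ)
        + ((univ.filter (fun j => lam j ≠ 0 ∧ lam j < ε₀)).card : ℝ)
        + Fintype.card m * (1 - ε₀ / K) ^ (2 * k) := by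
        rw [Finset.sum_add_distrib, Finset.sum_add_distrib, Finset.sum_boole, Finset.sum_boole,
          Finset.sum_const, Finset.card_univ, nsmul_eq_mul]
    _ ≤ _ := by
        rw [hker]
        linarith

end Pool.Agent.Q67.SM
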