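import Pool.Agent.Q67.SM.Kernel

/-!
Comparison of the finite models `σ : Γ → Sym(d)` with the group.
-/

open Matrix Finset

namespace Pool.Agent.Q67.SM

variable {Γ I : Type*} [Group Γ] [Fintype I] [DecidableEq I]

section finite

variable {d : ℕ} (τ : Γ → Equiv.Perm (Fin d)) (R : Finset (Γ × I →₀ ℤ))

/-- The integer matrix of the relations `R` in the finite model. -/
noncomputable def relMat : Matrix (R × Fin d) (Fin d × I) ℤ :=
  fun a b => ∑ q ∈ (a.1 : Γ × I →₀ ℤ).support,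
    if q.2 = b.2 ∧ τ q.1⁻¹ a.2 = b.1 then (a.1 : Γ × I →₀ ℤ) q else 0

lemma relMat_mulVec (x : Fin d × I → ℝ) (a : R × Fin d) :
    (toR (relMat τ R) *ᵥ x) a = ∑ q ∈ (a.1 : Γ × I →₀ ℤ).support,
      ((a.1 : Γ × I →₀ ℤ) q : ℝ) * x (τ q.1⁻¹ a.2, q.2) := by
  rw [mulVec, dotProduct]
  simp only [toR, relMat, Matrix.map_apply, map_sum, Finset.sum_mul]
  rw [Finset.sum_comm]
  refine Finset.sum_congr rfl fun q _ => ?_
  rw [Finset.sum_eq_single (τ q.1⁻¹ a.2, q.2)]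
  · simp
  · intro b _ hb
    rw [if_neg]
    · simp
    · rintro ⟨h1, h2⟩
      exact hb (Prod.ext h2.symm h1.symm)
  · intro h
    exact absurd (Finset.mem_univ _) h

/-- The bound `K`. -/
noncomputable def relBound (R : Finset (Γ × I →₀ ℤ)) : ℝ :=
  1 + ∑ c ∈ R, (∑ q ∈ c.support, |(c q : ℝ)|) ^ 2

omit [Group Γ] [Fintype I] [DecidableEq I] in
lemma one_le_relBound : 1 ≤ relBound R := by
  unfold relBound
  have : 0 ≤ ∑ c ∈ R, (∑ q ∈ c.support, |(c q : ℝ)|) ^ 2 := Finset.sum_nonneg fun c _ => by positivity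
  linarith

lemma relMat_bound (x : Fin d × I → ℝ) :
    (toR (relMat τ R) *ᵥ x) ⬝ᵥ (toR (relMat τ R) *ᵥ x) ≤ relBound R * (x ⬝ᵥ x) := by
  have hx : 0 ≤ x ⬝ᵥ x := dotProduct_self_star_nonneg x
  have hone : ∀ c : Γ × I →₀ ℤ, ∑ j : Fin d, (∑ q ∈ c.support, (c q : ℝ) * x (τ q.1⁻¹ j, q.2)) ^ 2
      ≤ (∑ q ∈ c.support, |(c q : ℝ)|) ^ 2 * (x ⬝ᵥ x) := by
    intro c
    have h1 : ∀ j : Fin d, (∑ q ∈ c.support, (c q : ℝ) * x (τ q.1⁻¹ j, q.2)) ^ 2
        ≤ (∑ q ∈ c.support, |(c q : ℝ)|) * ∑ q ∈ c.support, |(c q : ℝ)| * x (τ q.1⁻¹ j, q.2) ^ 2 := by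
      intro j
      have := Finset.sum_mul_sq_le_sq_mul_sq c.support (fun q => Real.sqrt |(c q : ℝ)|)
        (fun q => Real.sqrt |(c q : ℝ)| * |x (τ q.1⁻¹ j, q.2)|)
      have h2 : (∑ q ∈ c.support, (c q : ℝ) * x (τ q.1⁻¹ j, q.2)) ^ 2
          ≤ (∑ q ∈ c.support, Real.sqrt |(c q : ℝ)| *
            (Real.sqrt |(c q : ℝ)| * |x (τ q.1⁻¹ j, q.2)|)) ^ 2 := by
        rw [sq_le_sq]
        calc |∑ q ∈ c.support, (c q : ℝ) * x (τ q.1⁻¹ j, q.2)|
            ≤ ∑ q ∈ c.support, |(c q : ℝ) * x (τ q.1⁻¹ j, q.2)| := Finset.abs_sum_le_sum_abs _ _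
          _ = ∑ q ∈ c.support, Real.sqrt |(c q : ℝ)| *
            (Real.sqrt |(c q : ℝ)| * |x (τ q.1⁻¹ j, q.2)|) := by
              refine Finset.sum_congr rfl fun q _ => ?_
              rw [abs_mul, ← mul_assoc, Real.mul_self_sqrt (abs_nonneg _)]
          _ ≤ |_| := le_abs_self _
      refine h2.trans (this.trans (le_of_eq ?_))
      congr 1
      · refine Finset.sum_congr rfl fun q _ => ?_
        rw [Real.sq_sqrt (abs_nonneg _)]
      · refine Finset.sum_congr rfl fun q _ => ?_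
        rw [mul_pow, Real.sq_sqrt (abs_nonneg _), sq_abs]
    calc _ ≤ ∑ j : Fin d, (∑ q ∈ c.support, |(c q : ℝ)|) *
            ∑ q ∈ c.support, |(c q : ℝ)| * x (τ q.1⁻¹ j, q.2) ^ 2 := Finset.sum_le_sum fun j _ => h1 j
      _ = (∑ q ∈ c.support, |(c q : ℝ)|) *
            ∑ q ∈ c.support, |(c q : ℝ)| * ∑ j : Fin d, x (τ q.1⁻¹ j, q.2) ^ 2 := by
          rw [← Finset.mul_sum, Finset.sum_comm]
          simp only [Finset.mul_sum]
      _ ≤ (∑ q ∈ c.support, |(c q : ℝ)|) * ∑ q ∈ c.support, |(c q : ℝ)| * (x ⬝ᵥ x) := by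
          have hn : 0 ≤ ∑ q ∈ c.support, |(c q : ℝ)| := Finset.sum_nonneg fun _ _ => abs_nonneg _
          refine mul_le_mul_of_nonneg_left (Finset.sum_le_sum fun q _ => ?_) hn
          refine mul_le_mul_of_nonneg_left ?_ (abs_nonneg _)
          have h3 : ∑ j : Fin d, x (τ q.1⁻¹ j, q.2) ^ 2 = ∑ j : Fin d, x (j, q.2) ^ 2 :=
            Equiv.sum_comp (τ q.1⁻¹) (fun j => x (j, q.2) ^ 2)
          rw [h3, dotProduct, Fintype.sum_prod_type]
          refine Finset.sum_le_sum fun j _ => ?_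
          have := Finset.single_le_sum (f := fun i => x (j, i) * x (j, i))
            (fun i _ => mul_self_nonneg _) (Finset.mem_univ q.2)
          simpa [sq] using this
      _ = _ := by rw [← Finset.sum_mul]; ring
  have h1 : (toR (relMat τ R) *ᵥ x) ⬝ᵥ (toR (relMat τ R) *ᵥ x)
      = ∑ c ∈ R, ∑ j : Fin d, (∑ q ∈ c.support, (c q : ℝ) * x (τ q.1⁻¹ j, q.2)) ^ 2 := by
    rw [dotProduct, Fintype.sum_prod_type, ← Finset.sum_coe_sort R]
    refine Finset.sum_congr rfl fun c _ => Finset.sum_congr rfl fun j _ => ?_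
    rw [relMat_mulVec, sq]
  rw [h1]
  calc _ ≤ ∑ c ∈ R, (∑ q ∈ c.support, |(c q : ℝ)|) ^ 2 * (x ⬝ᵥ x) :=
        Finset.sum_le_sum fun c _ => hone c
    _ ≤ relBound R * (x ⬝ᵥ x) := by
        rw [← Finset.sum_mul, relBound]
        nlinarith

omit [Fintype I] in
lemma relMat_transpose_mulVec (w : R × Fin d → ℝ) :
    (toR (relMat τ R))ᵀ *ᵥ w = ∑ a : R × Fin d, w a • ∑ q ∈ (a.1 : Γ × I →₀ ℤ).support,
      ((a.1 : Γ × I →₀ ℤ) q : ℝ) • (Pi.single (τ q.1⁻¹ a.2, q.2) (1 : ℝ) : Fin d × I → ℝ) := by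
  ext b
  rw [mulVec, dotProduct, Finset.sum_apply]
  refine Finset.sum_congr rfl fun a _ => ?_
  rw [Pi.smul_apply, smul_eq_mul, mul_comm]
  congr 1
  simp only [transpose_apply, toR, relMat, Matrix.map_apply, map_sum, Finset.sum_apply,
    Pi.smul_apply, smul_eq_mul]
  refine Finset.sum_congr rfl fun q _ => ?_
  by_cases h : b = (τ q.1⁻¹ a.2, q.2)
  · rw [h]; simp
  · rw [Pi.single_eq_of_ne h, if_neg]
    · simp
    · rintro ⟨h1, h2⟩
      exact h (Prod.ext h2.symm h1.symm)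

end finite

section group

open Classical in
/-- The operator `∑_c M_c^* M_c` on finitely supported functions on `Γ × I`. -/
noncomputable def TG (R : Finset (Γ × I →₀ ℤ)) : (Γ × I →₀ ℝ) →ₗ[ℝ] (Γ × I →₀ ℝ) :=
  Finsupp.linearCombination ℝ (fun p : Γ × I => ∑ c ∈ R, ∑ q ∈ c.support, if q.2 = p.2 then
    ((c q : ℝ) • ∑ q' ∈ c.support, (c q' : ℝ) • Finsupp.single (p.1 * q.1⁻¹ * q'.1, q'.2) (1:ℝ))
    else 0)

/-- `1 - K⁻¹ T` on finitely supported functions. -/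
noncomputable def SG (R : Finset (Γ × I →₀ ℤ)) : (Γ × I →₀ ℝ) →ₗ[ℝ] (Γ × I →₀ ℝ) :=
  LinearMap.id - (relBound R)⁻¹ • TG R

/-- Push-forward to the finite model along `g ↦ σ(g⁻¹) j`. -/
noncomputable def push {d : ℕ} (τ : Γ → Equiv.Perm (Fin d)) (j : Fin d) :
    (Γ × I →₀ ℝ) →ₗ[ℝ] (Fin d × I → ℝ) :=
  Finsupp.linearCombination ℝ (fun p : Γ × I => Pi.single (τ p.1⁻¹ j, p.2) (1:ℝ))

variable {d : ℕ} (τ : Γ → Equiv.Perm (Fin d)) (R : Finset (Γ × I →₀ ℤ))

omit [Fintype I] in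
lemma push_single (j : Fin d) (p : Γ × I) :
    push τ j (Finsupp.single p (1:ℝ)) = Pi.single (τ p.1⁻¹ j, p.2) (1:ℝ) := by
  simp [push]

omit [Fintype I] in
lemma TG_single (p : Γ × I) : TG R (Finsupp.single p (1:ℝ)) = ∑ c ∈ R, ∑ q ∈ c.support,
    if q.2 = p.2 then
    ((c q : ℝ) • ∑ q' ∈ c.support, (c q' : ℝ) • Finsupp.single (p.1 * q.1⁻¹ * q'.1, q'.2) (1:ℝ))
    else 0 := by
  simp only [TG, Finsupp.linearCombination_single, one_smul]

/-- Intertwining on a single point mass. -/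
lemma intertwine_single (j : Fin d) (p : Γ × I)
    (h1 : ∀ c ∈ R, ∀ q ∈ c.support, τ q.1⁻¹ (τ (p.1 * q.1⁻¹)⁻¹ j) = τ p.1⁻¹ j)
    (h2 : ∀ c ∈ R, ∀ q ∈ c.support, ∀ q' ∈ c.support,
      τ q'.1⁻¹ (τ (p.1 * q.1⁻¹)⁻¹ j) = τ (p.1 * q.1⁻¹ * q'.1)⁻¹ j) :
    ((toR (relMat τ R))ᵀ * toR (relMat τ R)) *ᵥ (push τ j (Finsupp.single p (1:ℝ)))
      = push τ j (TG R (Finsupp.single p (1:ℝ))) := by
  classical
  rw [← mulVec_mulVec, relMat_transpose_mulVec, push_single, TG_single, map_sum,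
    Fintype.sum_prod_type, ← Finset.sum_coe_sort R]
  refine Finset.sum_congr rfl fun c _ => ?_
  have hcR : (c : Γ × I →₀ ℤ) ∈ R := c.2
  simp only [relMat_mulVec, Finset.sum_smul]
  rw [Finset.sum_comm, map_sum]
  refine Finset.sum_congr rfl fun q hq => ?_
  by_cases hqp : q.2 = p.2
  · rw [if_pos hqp, Finset.sum_eq_single (τ (p.1 * q.1⁻¹)⁻¹ j)]
    · rw [h1 c hcR q hq, hqp, Pi.single_eq_same, mul_one, map_smul, map_sum]
      congr 1
      refine Finset.sum_congr rfl fun q' hq' => ?_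
      rw [map_smul, push_single, h2 c hcR q hq q' hq']
    · intro j' _ hj'
      rw [Pi.single_eq_of_ne, mul_zero, zero_smul]
      intro h
      simp only [Prod.mk.injEq] at h
      apply hj'
      rw [← h1 c hcR q hq] at h
      exact (τ q.1⁻¹).injective h.1
    · intro h
      exact absurd (Finset.mem_univ _) h
  · rw [if_neg hqp, map_zero]
    refine Finset.sum_eq_zero fun j' _ => ?_
    rw [Pi.single_eq_of_ne, mul_zero, zero_smul]
    intro h
    simp only [Prod.mk.injEq] at h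
    exact hqp h.2

/-- `j` is good for the window `W`: the finite model looks like the group around `j`. -/
def GoodAt (W : Finset Γ) (j : Fin d) : Prop :=
  (∀ g ∈ W, ∀ c ∈ R, ∀ q ∈ c.support, τ q.1⁻¹ (τ (g * q.1⁻¹)⁻¹ j) = τ g⁻¹ j) ∧
  (∀ g ∈ W, ∀ c ∈ R, ∀ q ∈ c.support, ∀ q' ∈ c.support,
    τ q'.1⁻¹ (τ (g * q.1⁻¹)⁻¹ j) = τ (g * q.1⁻¹ * q'.1)⁻¹ j) ∧
  (∀ g ∈ W, ∀ g' ∈ W, τ g⁻¹ j = τ g'⁻¹ j → g = g')

lemma intertwine_T {W : Finset Γ} {j : Fin d} (hj : GoodAt τ R W j) (v : Γ × I →₀ ℝ)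
    (hv : ∀ p ∈ v.support, p.1 ∈ W) :
    ((toR (relMat τ R))ᵀ * toR (relMat τ R)) *ᵥ (push τ j v) = push τ j (TG R v) := by
  classical
  have h1 : v = ∑ p ∈ v.support, v p • Finsupp.single p (1:ℝ) := by
    conv_lhs => rw [← Finsupp.sum_single v]
    rw [Finsupp.sum]
    refine Finset.sum_congr rfl fun p _ => ?_
    simp
  have h2 : ∀ p ∈ v.support, ((toR (relMat τ R))ᵀ * toR (relMat τ R)) *ᵥ
      (push τ j (Finsupp.single p (1:ℝ))) = push τ j (TG R (Finsupp.single p (1:ℝ))) := by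
    intro p hp
    exact intertwine_single τ R j p (fun c hc q hq => hj.1 _ (hv p hp) c hc q hq)
      (fun c hc q hq q' hq' => hj.2.1 _ (hv p hp) c hc q hq q' hq')
  calc _ = ((toR (relMat τ R))ᵀ * toR (relMat τ R)) *ᵥ
        (∑ p ∈ v.support, v p • push τ j (Finsupp.single p (1:ℝ))) := by
        conv_lhs => rw [h1]
        rw [map_sum]
        simp only [map_smul]
    _ = ∑ p ∈ v.support, v p • (((toR (relMat τ R))ᵀ * toR (relMat τ R)) *ᵥ
        (push τ j (Finsupp.single p (1:ℝ)))) := by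
        rw [Matrix.mulVec_sum]
        simp only [Matrix.mulVec_smul]
    _ = ∑ p ∈ v.support, v p • push τ j (TG R (Finsupp.single p (1:ℝ))) :=
        Finset.sum_congr rfl fun p hp => by rw [h2 p hp]
    _ = push τ j (TG R v) := by
        conv_rhs => rw [h1]
        simp only [map_sum, map_smul]

lemma intertwine_S {W : Finset Γ} {j : Fin d} (hj : GoodAt τ R W j) (v : Γ × I →₀ ℝ)
    (hv : ∀ p ∈ v.support, p.1 ∈ W) :
    ((1 : Matrix (Fin d × I) (Fin d × I) ℝ) - (relBound R)⁻¹ •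
      ((toR (relMat τ R))ᵀ * toR (relMat τ R))) *ᵥ (push τ j v) = push τ j (SG R v) := by
  rw [Matrix.sub_mulVec, Matrix.one_mulVec, Matrix.smul_mulVec, intertwine_T τ R hj v hv, SG]
  simp

lemma intertwine_pow {W : Finset Γ} {j : Fin d} (hj : GoodAt τ R W j) (v : Γ × I →₀ ℝ) (k : ℕ)
    (hv : ∀ l < k, ∀ p ∈ ((SG R ^ l) v).support, p.1 ∈ W) :
    (((1 : Matrix (Fin d × I) (Fin d × I) ℝ) - (relBound R)⁻¹ •
      ((toR (relMat τ R))ᵀ * toR (relMat τ R))) ^ k) *ᵥ (push τ j v)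
      = push τ j ((SG R ^ k) v) := by
  induction k with
  | zero => simp
  | succ k ih =>
    rw [pow_succ', ← Matrix.mulVec_mulVec, ih (fun l hl => hv l (by omega)),
      intertwine_S τ R hj _ (hv k (by omega)), pow_succ']
    rfl

/-- The push-forward preserves the `ℓ²`-norm on the window. -/
lemma push_norm {W : Finset Γ} {j : Fin d} (hj : GoodAt τ R W j) (v : Γ × I →₀ ℝ)
    (hv : ∀ p ∈ v.support, p.1 ∈ W) : ∑ x, (push τ j v) x ^ 2 = ∑ p ∈ v.support, v p ^ 2 := by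
  classical
  have hval : ∀ x, (push τ j v) x = ∑ p ∈ v.support, if (τ p.1⁻¹ j, p.2) = x then v p else 0 := by
    intro x
    rw [push, Finsupp.linearCombination_apply, Finsupp.sum, Finset.sum_apply]
    refine Finset.sum_congr rfl fun p _ => ?_
    rw [Pi.smul_apply, smul_eq_mul]
    by_cases h : (τ p.1⁻¹ j, p.2) = x
    · rw [if_pos h, ← h, Pi.single_eq_same, mul_one]
    · rw [if_neg h, Pi.single_eq_of_ne (Ne.symm h), mul_zero]
  have hinj : ∀ p ∈ v.support, ∀ p' ∈ v.support, (τ p.1⁻¹ j, p.2) = (τ p'.1⁻¹ j, p'.2) → p = p' := by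
    intro p hp p' hp' h
    simp only [Prod.mk.injEq] at h
    exact Prod.ext (hj.2.2 _ (hv p hp) _ (hv p' hp') h.1) h.2
  have hsq : ∀ x, (push τ j v) x ^ 2 = ∑ p ∈ v.support, if (τ p.1⁻¹ j, p.2) = x then v p ^ 2 else 0 := by
    intro x
    rw [hval x]
    by_cases hex : ∃ p ∈ v.support, (τ p.1⁻¹ j, p.2) = x
    · obtain ⟨p, hp, hpx⟩ := hex
      rw [Finset.sum_eq_single p, Finset.sum_eq_single p, if_pos hpx, if_pos hpx]
      · intro p' hp' hne
        rw [if_neg]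
        intro h
        exact hne (hinj p' hp' p hp (h.trans hpx.symm))
      · intro h; exact absurd hp h
      · intro p' hp' hne
        rw [if_neg]
        intro h
        exact hne (hinj p' hp' p hp (h.trans hpx.symm))
      · intro h; exact absurd hp h
    · push Not at hex
      rw [Finset.sum_eq_zero fun p hp => if_neg (hex p hp),
        Finset.sum_eq_zero fun p hp => if_neg (hex p hp)]
      simp
  simp only [hsq]
  rw [Finset.sum_comm]
  refine Finset.sum_congr rfl fun p _ => ?_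
  rw [Finset.sum_ite_eq]
  simp

end group

end Pool.Agent.Q67.SM
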