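import Pool.Agent.Q67.SM.DimLower
import Pool.Agent.Q67.SM.Gromov

/-!
Real lifts of approximate solutions, continuous selection, and topology of the dual.
-/

open Filter Topology Matrix Set

namespace Pool.Agent.Q67.SM

/-- The Pontryagin dual of the discrete abelian group `A`. -/
def Dual (A : Type*) [AddCommGroup A] : Type _ :=
  {χ : A → UnitAddCircle // ∀ a b, χ (a + b) = χ a + χ b}

/-- The topology of pointwise convergence. -/
instance (A : Type*) [AddCommGroup A] : TopologicalSpace (Dual A) :=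
  instTopologicalSpaceSubtype

variable {Γ A : Type*} [Group Γ] [AddCommGroup A] [Module (MonoidAlgebra ℤ Γ) A] {n : ℕ}

/-- The map `ℤ(Γ)^n → A`. -/
noncomputable def Phi (a : Fin n → A) : (Γ × Fin n →₀ ℤ) →ₗ[ℤ] A :=
  Finsupp.linearCombination ℤ (fun q : Γ × Fin n => MonoidAlgebra.of ℤ Γ q.1 • a q.2)

lemma isRel_iff (a : Fin n → A) (c : Γ × Fin n →₀ ℤ) : IsRel a c ↔ Phi a c = 0 := by
  rw [IsRel, Phi, Finsupp.linearCombination_apply]

lemma Phi_single (a : Fin n → A) (q : Γ × Fin n) :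
    Phi a (Finsupp.single q 1) = MonoidAlgebra.of ℤ Γ q.1 • a q.2 := by
  simp [Phi]

lemma Phi_translate (a : Fin n → A) (c : Γ × Fin n →₀ ℤ) (g : Γ) :
    Phi a (translate g c) = MonoidAlgebra.of ℤ Γ g • Phi a c := by
  rw [Phi, Finsupp.linearCombination_apply, Finsupp.linearCombination_apply, translate,
    Finsupp.sum_mapDomain_index (by simp) (by intros; rw [add_smul]), Finsupp.smul_sum]
  refine Finsupp.sum_congr fun q _ => ?_
  simp only
  rw [map_mul, mul_smul, smul_comm]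

lemma Phi_surjective {a : Fin n → A} (ha : Submodule.span (MonoidAlgebra ℤ Γ) (range a) = ⊤) :
    Function.Surjective (Phi (Γ := Γ) a) := by
  intro b
  have hb : b ∈ Submodule.span (MonoidAlgebra ℤ Γ) (range a) := by rw [ha]; trivial
  induction hb using Submodule.span_induction with
  | mem x hx =>
    obtain ⟨i, rfl⟩ := hx
    exact ⟨Finsupp.single (1, i) 1, by rw [Phi_single, map_one, one_smul]⟩
  | zero => exact ⟨0, map_zero _⟩
  | add x y _ _ hx hy =>
    obtain ⟨c, hc⟩ := hx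
    obtain ⟨c', hc'⟩ := hy
    exact ⟨c + c', by rw [map_add, hc, hc']⟩
  | smul r x _ hx =>
    obtain ⟨c, hc⟩ := hx
    induction r using MonoidAlgebra.induction_on with
    | of g => exact ⟨translate g c, by rw [Phi_translate, hc]⟩
    | add f g hf hg =>
      obtain ⟨c₁, h₁⟩ := hf
      obtain ⟨c₂, h₂⟩ := hg
      exact ⟨c₁ + c₂, by rw [map_add, h₁, h₂, add_smul]⟩
    | smul m f hf =>
      obtain ⟨c₁, h₁⟩ := hf
      exact ⟨m • c₁, by rw [map_smul, h₁, smul_assoc]⟩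

/-- A real function on `Γ × I` annihilated by all relations comes from a homomorphism `A → ℝ`. -/
lemma exists_lift {a : Fin n → A} (ha : Submodule.span (MonoidAlgebra ℤ Γ) (range a) = ⊤)
    (u : Γ × Fin n → ℝ) (hu : ∀ c : Γ × Fin n →₀ ℤ, IsRel a c →
      ∑ q ∈ c.support, (c q : ℝ) * u q = 0) :
    ∃ y : A →+ ℝ, ∀ q : Γ × Fin n, y (MonoidAlgebra.of ℤ Γ q.1 • a q.2) = u q := by
  let L : (Γ × Fin n →₀ ℤ) →ₗ[ℤ] ℝ := Finsupp.linearCombination ℤ u
  have hL : LinearMap.ker (Phi (Γ := Γ) a) ≤ LinearMap.ker L := by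
    intro c hc
    rw [LinearMap.mem_ker] at hc ⊢
    have := hu c ((isRel_iff a c).2 hc)
    rw [← this]
    simp only [L, Finsupp.linearCombination_apply, Finsupp.sum, zsmul_eq_mul]
  let E := (Phi (Γ := Γ) a).quotKerEquivOfSurjective (Phi_surjective ha)
  let y : A →ₗ[ℤ] ℝ := ((LinearMap.ker (Phi (Γ := Γ) a)).liftQ L hL).comp E.symm.toLinearMap
  refine ⟨y.toAddMonoidHom, fun q => ?_⟩
  have h1 : E.symm (MonoidAlgebra.of ℤ Γ q.1 • a q.2)
      = Submodule.Quotient.mk (Finsupp.single q (1:ℤ)) := by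
    rw [LinearEquiv.symm_apply_eq]
    change _ = Phi a (Finsupp.single q (1:ℤ))
    rw [Phi_single]
  change ((LinearMap.ker (Phi (Γ := Γ) a)).liftQ L hL) (E.symm (MonoidAlgebra.of ℤ Γ q.1 • a q.2)) = _
  rw [h1, Submodule.liftQ_apply]
  simp [L]

/-- Compactness: finitely many relations suffice to be close to a homomorphism on a window. -/
lemma exists_finite_relations {a : Fin n → A}
    (ha : Submodule.span (MonoidAlgebra ℤ Γ) (range a) = ⊤) (W : Finset Γ) {ε r : ℝ} (hε : 0 < ε) :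
    ∃ R : Finset (Γ × Fin n →₀ ℤ), (∀ c ∈ R, IsRel a c) ∧ ∀ u : Γ × Fin n → ℝ, (∀ q, |u q| ≤ r) →
      (∀ c ∈ R, ∑ q ∈ c.support, (c q : ℝ) * u q = 0) →
      ∃ y : A →+ ℝ, ∀ g ∈ W, ∀ i, |y (MonoidAlgebra.of ℤ Γ g • a i) - u (g, i)| < ε := by
  classical
  let N : Set (Γ × Fin n → ℝ) := ⋃ y : A →+ ℝ, ⋂ g ∈ W, ⋂ i : Fin n,
    {u | |y (MonoidAlgebra.of ℤ Γ g • a i) - u (g, i)| < ε}
  have hN : IsOpen N := by
    refine isOpen_iUnion fun y => isOpen_biInter_finset fun g _ => isOpen_iInter_of_finite fun i => ?_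
    exact isOpen_lt (by fun_prop) continuous_const
  let B : Set (Γ × Fin n → ℝ) := Set.pi univ (fun _ => Icc (-r) r)
  have hB : IsCompact B := isCompact_univ_pi fun _ => isCompact_Icc
  let Z : {c : Γ × Fin n →₀ ℤ // IsRel a c} → Set (Γ × Fin n → ℝ) := fun c =>
    {u | ∑ q ∈ c.1.support, (c.1 q : ℝ) * u q = 0}
  have hZ : ∀ c, IsClosed (Z c) := fun c => isClosed_eq (by fun_prop) continuous_const
  obtain ⟨t, ht⟩ := (hB.diff hN).elim_finite_subfamily_closed Z hZ (by
    rw [eq_empty_iff_forall_notMem]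
    rintro u ⟨⟨-, huN⟩, huZ⟩
    apply huN
    obtain ⟨y, hy⟩ := exists_lift ha u (fun c hc => mem_iInter.1 huZ ⟨c, hc⟩)
    refine mem_iUnion.2 ⟨y, mem_iInter₂.2 fun g _ => mem_iInter.2 fun i => ?_⟩
    change |y (MonoidAlgebra.of ℤ Γ g • a i) - u (g, i)| < ε
    rw [hy (g, i), sub_self, abs_zero]
    exact hε)
  refine ⟨t.image Subtype.val, ?_, fun u hu huR => ?_⟩
  · intro c hc
    obtain ⟨c', -, rfl⟩ := Finset.mem_image.1 hc
    exact c'.2
  · have huN : u ∈ N := by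
      by_contra hcon
      have : u ∈ (B \ N) ∩ ⋂ c ∈ t, Z c := by
        refine ⟨⟨fun q _ => abs_le.1 (hu q), hcon⟩, mem_iInter₂.2 fun c hc => ?_⟩
        exact huR c.1 (Finset.mem_image_of_mem _ hc)
      rw [ht] at this
      exact this
    obtain ⟨y, hy⟩ := mem_iUnion.1 huN
    exact ⟨y, fun g hg i => mem_iInter.1 (mem_iInter₂.1 hy g hg) i⟩

/-- Continuous selection of homomorphisms close to the approximate solutions. -/
lemma exists_selection {a : Fin n → A} (W : Finset Γ) {ε r : ℝ} (hε : 0 < ε)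
    {R : Finset (Γ × Fin n →₀ ℤ)}
    (hR : ∀ u : Γ × Fin n → ℝ, (∀ q, |u q| ≤ r) →
      (∀ c ∈ R, ∑ q ∈ c.support, (c q : ℝ) * u q = 0) →
      ∃ y : A →+ ℝ, ∀ g ∈ W, ∀ i, |y (MonoidAlgebra.of ℤ Γ g • a i) - u (g, i)| < ε)
    {d : ℕ} (τ : Γ → Equiv.Perm (Fin d)) :
    ∃ z : Metric.closedBall (0 : LinearMap.ker (toR (relMat τ R)).mulVecLin) r → Fin d → A → ℝ,
      (∀ x j b b', z x j (b + b') = z x j b + z x j b') ∧ (∀ j b, Continuous fun x => z x j b) ∧
      ∀ x j, ∀ g ∈ W, ∀ i, |z x j (MonoidAlgebra.of ℤ Γ g • a i)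
        - (x : LinearMap.ker (toR (relMat τ R)).mulVecLin).1 (τ g⁻¹ j, i)| < 2 * ε := by
  classical
  set V := LinearMap.ker (toR (relMat τ R)).mulVecLin with hV
  have hprop : ProperSpace V := FiniteDimensional.proper ℝ V
  have hKc : CompactSpace (Metric.closedBall (0:V) r) :=
    isCompact_iff_compactSpace.1 (isCompact_closedBall 0 r)
  -- pointwise choice
  have hpt : ∀ (x : Metric.closedBall (0:V) r) (j : Fin d), ∃ y : A →+ ℝ, ∀ g ∈ W, ∀ i,
      |y (MonoidAlgebra.of ℤ Γ g • a i) - (x : V).1 (τ g⁻¹ j, i)| < ε := by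
    intro x j
    have hx : ‖(x : V)‖ ≤ r := mem_closedBall_zero_iff.1 x.2
    obtain ⟨y, hy⟩ := hR (fun q => (x : V).1 (τ q.1⁻¹ j, q.2)) (fun q => by
      have h1 := norm_le_pi_norm (x : V).1 (τ q.1⁻¹ j, q.2)
      rw [Real.norm_eq_abs] at h1
      exact h1.trans hx) (fun c hc => by
      have h1 : (toR (relMat τ R)) *ᵥ (x : V).1 = 0 := (x : V).2
      have h2 := relMat_mulVec τ R (x : V).1 (⟨c, hc⟩, j)
      rw [h1] at h2
      exact h2.symm)
    exact ⟨y, hy⟩
  choose y hy using hpt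
  -- finite cover
  obtain ⟨t, ht⟩ := isCompact_univ.elim_finite_subcover
    (fun x : Metric.closedBall (0:V) r => Metric.ball x ε) (fun x => Metric.isOpen_ball)
    (fun x _ => mem_iUnion.2 ⟨x, Metric.mem_ball_self hε⟩)
  obtain ⟨lam, hlam⟩ := PartitionOfUnity.exists_isSubordinate
    (s := (univ : Set (Metric.closedBall (0:V) r))) isClosed_univ
    (fun x : t => Metric.ball (x : Metric.closedBall (0:V) r) ε) (fun x => Metric.isOpen_ball) (by
      intro x _
      obtain ⟨x', hx'⟩ := mem_iUnion.1 (ht (mem_univ x))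
      obtain ⟨h1, h2⟩ := mem_iUnion.1 hx'
      exact mem_iUnion.2 ⟨⟨x', h1⟩, h2⟩)
  have hmem : ∀ (w : t) x, lam w x ≠ 0 → dist x (w : Metric.closedBall (0:V) r) < ε :=
    fun w x h => hlam w (subset_closure h)
  have hsum : ∀ x, ∑ w, lam w x = 1 := fun x => by
    rw [← finsum_eq_sum_of_fintype]
    exact lam.sum_eq_one (mem_univ x)
  refine ⟨fun x j b => ∑ w, lam w x * y w j b, ?_, ?_, ?_⟩
  · intro x j b b'
    simp only [map_add, mul_add, Finset.sum_add_distrib]
  · intro j b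
    exact continuous_finsetSum _ fun w _ => (lam w).continuous.mul continuous_const
  · intro x j g hg i
    have h1 : ∑ w, lam w x * y w j (MonoidAlgebra.of ℤ Γ g • a i) - (x : V).1 (τ g⁻¹ j, i)
        = ∑ w, lam w x * (y w j (MonoidAlgebra.of ℤ Γ g • a i) - (x : V).1 (τ g⁻¹ j, i)) := by
      simp only [mul_sub, Finset.sum_sub_distrib]
      rw [← Finset.sum_mul, hsum, one_mul]
    rw [h1]
    have h2 : ∀ w, lam w x ≠ 0 →
        |y w j (MonoidAlgebra.of ℤ Γ g • a i) - (x : V).1 (τ g⁻¹ j, i)| < 2 * ε := by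
      intro w hw
      have h3 := hy w j g hg i
      have h4 : |((w : Metric.closedBall (0:V) r) : V).1 (τ g⁻¹ j, i) - (x : V).1 (τ g⁻¹ j, i)| < ε := by
        have h5 := hmem w x hw
        have h6 := norm_le_pi_norm (((w : Metric.closedBall (0:V) r) : V).1 - (x : V).1) (τ g⁻¹ j, i)
        rw [Real.norm_eq_abs, Pi.sub_apply] at h6
        refine h6.trans_lt ?_
        rw [dist_comm] at h5
        rw [Subtype.dist_eq, dist_eq_norm] at h5
        exact h5
      calc |y w j (MonoidAlgebra.of ℤ Γ g • a i) - (x : V).1 (τ g⁻¹ j, i)|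
          ≤ |y w j (MonoidAlgebra.of ℤ Γ g • a i)
              - ((w : Metric.closedBall (0:V) r) : V).1 (τ g⁻¹ j, i)|
            + |((w : Metric.closedBall (0:V) r) : V).1 (τ g⁻¹ j, i) - (x : V).1 (τ g⁻¹ j, i)| :=
            abs_sub_le _ _ _
        _ < 2 * ε := by linarith
    obtain ⟨w₀, hw₀⟩ : ∃ w, lam w x ≠ 0 := by
      by_contra hcon
      push Not at hcon
      have := hsum x
      simp [hcon] at this
    calc |∑ w, lam w x * (y w j (MonoidAlgebra.of ℤ Γ g • a i) - (x : V).1 (τ g⁻¹ j, i))|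
        ≤ ∑ w, |lam w x * (y w j (MonoidAlgebra.of ℤ Γ g • a i) - (x : V).1 (τ g⁻¹ j, i))| :=
          Finset.abs_sum_le_sum_abs _ _
      _ < ∑ w, lam w x * (2 * ε) := by
          refine Finset.sum_lt_sum (fun w _ => ?_) ⟨w₀, Finset.mem_univ _, ?_⟩
          · rw [abs_mul, abs_of_nonneg (lam.nonneg w x)]
            by_cases h0 : lam w x = 0
            · rw [h0]; simp
            · exact mul_le_mul_of_nonneg_left (h2 w h0).le (lam.nonneg w x)
          · rw [abs_mul, abs_of_nonneg (lam.nonneg w₀ x)]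
            exact mul_lt_mul_of_pos_left (h2 w₀ hw₀)
              (lt_of_le_of_ne (lam.nonneg w₀ x) (Ne.symm hw₀))
      _ = 2 * ε := by rw [← Finset.sum_mul, hsum, one_mul]

end Pool.Agent.Q67.SM
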